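import Pool.Agent.Helper584_PC.Val

/-! Baire category argument: the number of half turns is constant if every point of the curve is a
chord-arc point or an isolated corner or cusp. -/

set_option autoImplicit false
open Complex Set Topology Metric

namespace Pool.Agent.Helper584_PC

open Pool.Agent.H763R2 Pool.Agent.H763R2.An Pool.Agent.W675.Peg Pool.Agent.TH569.Peg
open Pool.Agent.Y535.PEG Pool.Agent.Helper584_CU
open Pool.Agent.H763R2.Dm (NoSq)

variable {c : ℝ → ℂ} {θ : ℝ → ℝ → ℝ} {g : ℤ}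

/-- an isolated corner or cusp -/
def Ex (c : ℝ → ℂ) (p : ℝ) : Prop := (∃ ρ > 0, ∀ t, |t - p| < ρ → t ≠ p → Cone c t) ∧
  (Mon c p ∨ Csp c p) ∧ (Cone c p ∨ ¬ ∃ ρ > 0, Pc c (9 / 10) p ρ)

/-- the value at a good point -/
def Val (c : ℝ → ℂ) (θ : ℝ → ℝ → ℝ) (p : ℝ) (k : ℤ) : Prop :=
  ((∃ ρ > 0, Pc c (9 / 10) p ρ) ∨ Cone c p) ∧ V θ p k

/-- the value is locally constant -/
def LC (c : ℝ → ℂ) (θ : ℝ → ℝ → ℝ) (p : ℝ) : Prop := ∃ ρ > 0, ∃ k, ∀ q k', |q - p| < ρ →
  Val c θ q k' → k' = k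

theorem LC.of_cone (L : Loop c) (J : Inj c) (A : Ang c (mgc c) θ g) {p : ℝ} (h : Cone c p) :
    LC c θ p := by
  obtain ⟨k, hk⟩ := exKL L J A h
  obtain ⟨ρ, hρ, H⟩ := hk.loc
  exact ⟨ρ, hρ, k, fun q k' hq hv => hv.2.uniq (V.of_KL (H q hq))⟩

theorem LC.of_ex (L : Loop c) (J : Inj c) (nosq : NoSq (range c)) (A : Ang c (mgc c) θ g) {p : ℝ}
    (h : Ex c p) : LC c θ p := by
  by_cases hcone : Cone c p
  · exact LC.of_cone L J A hcone
  · obtain ⟨⟨ρ, hρ, hC⟩, h2, h3⟩ := h
    replace h3 := h3.resolve_left hcone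
    obtain ⟨r, hr, r1, r2, H⟩ : ∃ r > 0, r ≤ ρ ∧ r ≤ 1 / 2 ∧ ∀ s t, |s - p| < r → |t - p| < r →
        s < t → s ≠ p → t ≠ p → ∀ k l, KL θ s k → KL θ t l → k = l := by
      rcases h2 with h2 | h2
      · obtain ⟨r, hr, r1, r2⟩ : ∃ r > 0, r ≤ ρ ∧ r ≤ 1 / 2 :=
          ⟨min ρ (1 / 2), by positivity, min_le_left _ _, min_le_right _ _⟩
        refine ⟨r, hr, r1, r2, fun s t hs ht hst hsp htp k l hk hl => ?_⟩
        refine (monoX jP jT2 Y407.PEG.sgU jI L J nosq A hst (Tri_UU r2 hs ht hst)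
          (hC s (hs.trans_le r1) hsp) (hC t (ht.trans_le r1) htp) (fun z hz => ?_) hk hl).symm
        by_cases hzp : z = p
        · rw [hzp]; exact h2
        · refine cone_mon (hC z ?_ hzp)
          have hs' := abs_lt.1 hs
          have ht' := abs_lt.1 ht
          rw [abs_lt]
          constructor <;> linarith [hz.1, hz.2]
      · obtain ⟨r', hr', hK⟩ := h2.KL L J nosq A
        obtain ⟨r, hr, r1, r2, r3⟩ : ∃ r > 0, r ≤ ρ ∧ r ≤ 1 / 2 ∧ r ≤ r' :=
          ⟨min (min ρ (1 / 2)) r', by positivity, (min_le_left _ _).trans (min_le_left _ _),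
            (min_le_left _ _).trans (min_le_right _ _), min_le_right _ _⟩
        exact ⟨r, hr, r1, r2, fun s t hs ht hst hsp htp k l hk hl =>
          hK s t (hs.trans_le r3) (ht.trans_le r3) hst (hC s (hs.trans_le r1) hsp)
            (hC t (ht.trans_le r1) htp) k l hk hl⟩
    have hq0 : |p + r / 2 - p| < r := by rw [abs_lt]; constructor <;> linarith
    have hq0p : p + r / 2 ≠ p := by intro h; linarith
    obtain ⟨k, hk⟩ := exKL L J A (hC _ (hq0.trans_le r1) hq0p)
    refine ⟨r, hr, k, fun q k' hq hv => ?_⟩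
    have hqp : q ≠ p := by
      rintro rfl
      rcases hv.1 with h | h
      · exact h3 h
      · exact hcone h
    obtain ⟨l, hl⟩ := exKL L J A (hC q (hq.trans_le r1) hqp)
    rw [hv.2.uniq (V.of_KL hl)]
    rcases lt_trichotomy q (p + r / 2) with h | h | h
    · exact H _ _ hq hq0 h hqp hq0p l k hl hk
    · rw [h] at hl; exact hl.uniq hk
    · exact (H _ _ hq0 hq h hq0p hqp k l hk hl).symm

/-- the chain argument -/
theorem chain {a b : ℝ} (hab : a ≤ b) (hLC : ∀ p ∈ Icc a b, LC c θ p)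
    (dense : ∀ p, ∀ ρ > 0, ∃ q k, |q - p| < ρ ∧ Val c θ q k) {k l : ℤ} (hk : Val c θ a k)
    (hl : Val c θ b l) : k = l := by
  obtain ⟨U1, hU1⟩ : ∃ U : Set ℝ, U = {p | ∃ ρ > 0, ∀ q k', |q - p| < ρ → Val c θ q k' → k' = k} :=
    ⟨_, rfl⟩
  obtain ⟨U2, hU2⟩ : ∃ U : Set ℝ, U = {p | ∃ ρ > 0, ∃ m, m ≠ k ∧ ∀ q k', |q - p| < ρ →
    Val c θ q k' → k' = m} := ⟨_, rfl⟩
  have o1 : IsOpen U1 := by
    rw [Metric.isOpen_iff]
    intro p hp
    rw [hU1] at hp
    obtain ⟨ρ, hρ, H⟩ := hp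
    refine ⟨ρ / 2, by positivity, fun s hs => ?_⟩
    rw [mem_ball, Real.dist_eq] at hs
    rw [hU1]
    exact ⟨ρ / 2, by positivity, fun q k' hq hv => H q k' (near_tr (by linarith) hq) hv⟩
  have o2 : IsOpen U2 := by
    rw [Metric.isOpen_iff]
    intro p hp
    rw [hU2] at hp
    obtain ⟨ρ, hρ, m, hm, H⟩ := hp
    refine ⟨ρ / 2, by positivity, fun s hs => ?_⟩
    rw [mem_ball, Real.dist_eq] at hs
    rw [hU2]
    exact ⟨ρ / 2, by positivity, m, hm, fun q k' hq hv => H q k' (near_tr (by linarith) hq) hv⟩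
  have cov : ∀ p ∈ Icc a b, p ∈ U1 ∨ p ∈ U2 := by
    intro p hp
    obtain ⟨ρ, hρ, m, H⟩ := hLC p hp
    by_cases hm : m = k
    · left; rw [hU1]; rw [hm] at H; exact ⟨ρ, hρ, H⟩
    · right; rw [hU2]; exact ⟨ρ, hρ, m, hm, H⟩
  have disj : ∀ p, p ∈ U1 → p ∈ U2 → False := by
    intro p h1 h2
    rw [hU1] at h1
    rw [hU2] at h2
    obtain ⟨ρ, hρ, H⟩ := h1
    obtain ⟨ρ', hρ', m, hm, H'⟩ := h2
    obtain ⟨q, k', hq, hv⟩ := dense p (min ρ ρ') (lt_min hρ hρ')
    have e1 := H q k' (hq.trans_le (min_le_left _ _)) hv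
    have e2 := H' q k' (hq.trans_le (min_le_right _ _)) hv
    exact hm (by rw [← e2, e1])
  have a1 : a ∈ U1 := by
    rcases cov a ⟨le_rfl, hab⟩ with h | h
    · exact h
    · rw [hU2] at h
      obtain ⟨ρ, hρ, m, hm, H⟩ := h
      exact absurd (H a k (by simpa using hρ) hk).symm hm
  have b1 : b ∈ U1 := by
    by_contra hb
    have b2 := (cov b ⟨hab, le_rfl⟩).resolve_left hb
    obtain ⟨z, hz, z1, z2⟩ := isPreconnected_Icc U1 U2 o1 o2 (fun p hp => cov p hp)
      ⟨a, ⟨le_rfl, hab⟩, a1⟩ ⟨b, ⟨hab, le_rfl⟩, b2⟩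
    exact disj z z1 z2
  rw [hU1] at b1
  obtain ⟨ρ, hρ, H⟩ := b1
  exact (H b l (by simpa using hρ) hl).symm

/-- the set of chord-arc points with a given radius is closed -/
theorem Pc_closed (hc : Continuous c) (κ ρ : ℝ) : IsClosed {p | Pc c κ p ρ} := by
  rw [← isOpen_compl_iff, Metric.isOpen_iff]
  intro p hp
  rw [mem_compl_iff] at hp
  have hp' : ¬ Pc c κ p ρ := hp
  unfold Pc at hp'
  push Not at hp'
  obtain ⟨x, y, a, b, d, e, f⟩ := hp'
  have hF : Continuous fun s => ‖c (max y s) - c (min x s)‖ - κ * (max y s - min x s) := by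
    fun_prop
  have hlt : ‖c (max y p) - c (min x p)‖ - κ * (max y p - min x p) < 0 := by
    rw [max_eq_left d, min_eq_left b]; linarith
  obtain ⟨r, hr, H⟩ := Metric.eventually_nhds_iff.1 (hF.continuousAt.eventually_lt_const hlt)
  refine ⟨min r (min (x - (p - ρ)) (p + ρ - y)), lt_min hr (lt_min (by linarith) (by linarith)),
    fun s hs => ?_⟩
  rw [mem_ball, Real.dist_eq] at hs
  have s1 := hs.trans_le (min_le_left _ _)
  have s2 := abs_lt.1 (hs.trans_le ((min_le_right _ _).trans (min_le_left _ _)))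
  have s3 := abs_lt.1 (hs.trans_le ((min_le_right _ _).trans (min_le_right _ _)))
  have h1 := H (by rw [Real.dist_eq]; exact s1)
  intro hP
  have hP' : Pc c κ s ρ := hP
  have hρ : 0 < ρ := by linarith
  have := hP' (min x s) (max y s) (lt_min (by linarith) (by linarith)) (min_le_right _ _)
    (le_max_right _ _) (max_lt (by linarith) (by linarith))
  linarith

/-- the main theorem for curves of unit speed -/
theorem pc_false (L : Loop c) (J : Inj c) (nosq : NoSq (range c))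
    (hl : ∀ x y, ‖c x - c y‖ ≤ |x - y|)
    (H : ∀ p, (∃ ρ > 0, Pc c (99 / 100) p ρ) ∨ Ex c p) : False := by
  obtain ⟨θ, g, A, hodd⟩ := exists_odd L J nosq
  have dense : ∀ p, ∀ ρ > 0, ∃ q k, |q - p| < ρ ∧ Val c θ q k := by
    intro p ρ hρ
    rcases H p with ⟨ρ', hρ', hP⟩ | hE
    · have hP9 : Pc c (9 / 10) p ρ' := hP.mono (by norm_num) le_rfl
      obtain ⟨r, hr, -, -, h⟩ := pc_const L J hl A hρ'
      obtain ⟨k, hk⟩ := h p hP9
      exact ⟨p, k, by simpa using hρ, Or.inl ⟨ρ', hρ', hP9⟩, r, hr, hk⟩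
    · obtain ⟨⟨ρ', hρ', hC⟩, -, -⟩ := hE
      have h1 := min_le_left ρ ρ'
      have h2 := min_le_right ρ ρ'
      have h3 : 0 < min ρ ρ' := lt_min hρ hρ'
      have hq : Cone c (p + min ρ ρ' / 2) := hC _ (by rw [abs_lt]; constructor <;> linarith)
        (by intro h; linarith)
      obtain ⟨k, hk⟩ := exKL L J A hq
      exact ⟨_, k, by rw [abs_lt]; constructor <;> linarith, Or.inr hq, V.of_KL hk⟩
  by_cases hall : ∀ p, LC c θ p
  · obtain ⟨q, k, -, hv⟩ := dense 0 1 one_pos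
    have hv1 : Val c θ (q + 1) (k + 2 * g) := by
      refine ⟨?_, hv.2.per A⟩
      rcases hv.1 with ⟨ρ, hρ, hP⟩ | h
      · left
        refine ⟨ρ, hρ, fun x y a b d e => ?_⟩
        have := hP (x - 1) (y - 1) (by linarith) (by linarith) (by linarith) (by linarith)
        have e1 := L.per (x - 1)
        have e2 := L.per (y - 1)
        rw [sub_add_cancel] at e1 e2
        rw [e1, e2]
        linarith
      · right; exact h.per L
    have := chain (by linarith) (fun p _ => hall p) dense hv hv1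
    have hg : g = 0 := by linarith
    rw [hg] at hodd
    exact absurd hodd (by decide)
  · push Not at hall
    obtain ⟨pb, hpb⟩ := hall
    obtain ⟨N, hN⟩ : ∃ N : Set ℝ, N = {p | ¬ LC c θ p} := ⟨_, rfl⟩
    have hNmem : ∀ p, p ∈ N ↔ ¬ LC c θ p := fun p => by rw [hN]; rfl
    have hNc : IsClosed N := by
      rw [← isOpen_compl_iff, Metric.isOpen_iff]
      intro p hp
      rw [mem_compl_iff, hNmem, not_not] at hp
      obtain ⟨ρ, hρ, m, H'⟩ := hp
      refine ⟨ρ / 2, by positivity, fun s hs => ?_⟩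
      rw [mem_ball, Real.dist_eq] at hs
      rw [mem_compl_iff, hNmem, not_not]
      exact ⟨ρ / 2, by positivity, m, fun q k' hq hv => H' q k' (near_tr (by linarith) hq) hv⟩
    have hNP : ∀ p ∈ N, ∃ ρ > 0, Pc c (99 / 100) p ρ := by
      intro p hp
      rcases H p with h | h
      · exact h
      · exact absurd (LC.of_ex L J nosq A h) ((hNmem p).1 hp)
    -- Baire
    have hcs : CompleteSpace N := hNc.completeSpace_coe
    have hne : Nonempty N := ⟨⟨pb, (hNmem pb).2 hpb⟩⟩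
    obtain ⟨n, ⟨p0, hp0⟩, hp0i⟩ := nonempty_interior_of_iUnion_of_closed
      (X := N) (f := fun n : ℕ => {p : N | Pc c (99 / 100) (p : ℝ) (1 / ((n : ℝ) + 1))})
      (fun n => (Pc_closed L.cont _ _).preimage continuous_subtype_val) (by
        refine eq_univ_of_forall fun p => ?_
        obtain ⟨ρ, hρ, hP⟩ := hNP p p.2
        obtain ⟨n, hn⟩ := exists_nat_one_div_lt hρ
        exact mem_iUnion.2 ⟨n, hP.mono le_rfl hn.le⟩)
    obtain ⟨ρ0, hρ0e⟩ : ∃ ρ0, ρ0 = 1 / ((n : ℝ) + 1) := ⟨_, rfl⟩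
    have hρ0 : 0 < ρ0 := by rw [hρ0e]; positivity
    rw [← hρ0e] at hp0i
    obtain ⟨r0, hr0, hball⟩ := Metric.mem_nhds_iff.1 (mem_interior_iff_mem_nhds.1 hp0i)
    have hPN : ∀ ξ ∈ N, |ξ - p0| < r0 → Pc c (99 / 100) ξ ρ0 := fun ξ hξ h =>
      hball (show (⟨ξ, hξ⟩ : N) ∈ ball ⟨p0, hp0⟩ r0 from by
        rw [mem_ball, Subtype.dist_eq, Real.dist_eq]; exact h)
    obtain ⟨r, hr, -, -, hconst⟩ := pc_const L J hl A hρ0
    obtain ⟨ra, hra, hright⟩ := rec_right L J hl hρ0
    obtain ⟨rb, hrb, hleft⟩ := rec_left L J hl hρ0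
    obtain ⟨r1, hr1, l1, l2, l3, l4, l5⟩ : ∃ r1 > 0, r1 ≤ r0 ∧ r1 ≤ r ∧ r1 ≤ ra ∧ r1 ≤ rb ∧
        r1 ≤ 1 / 2 := by
      refine ⟨min (min (min r0 r) (min ra rb)) (1 / 2), by positivity, ?_, ?_, ?_, ?_,
        min_le_right _ _⟩
      · exact (min_le_left _ _).trans ((min_le_left _ _).trans (min_le_left _ _))
      · exact (min_le_left _ _).trans ((min_le_left _ _).trans (min_le_right _ _))
      · exact (min_le_left _ _).trans ((min_le_right _ _).trans (min_le_left _ _))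
      · exact (min_le_left _ _).trans ((min_le_right _ _).trans (min_le_right _ _))
    have hP9 : ∀ ξ ∈ N, |ξ - p0| < r0 → Pc c (9 / 10) ξ ρ0 := fun ξ hξ h =>
      (hPN ξ hξ h).mono (by norm_num) le_rfl
    obtain ⟨k0, hk0⟩ := hconst p0 (hP9 p0 hp0 (by simpa using hr0))
    have same : ∀ ξ ∈ N, |ξ - p0| < r1 → ∀ x y : ℝ, ξ - r < x → x ≤ ξ → ξ ≤ y →
        y < ξ + r → x < y → ⌊θ x y / Real.pi⌋ = k0 := by
      intro ξ hξ hξ0
      obtain ⟨k, hk⟩ := hconst ξ (hP9 ξ hξ (hξ0.trans_le l1))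
      have hξ' := abs_lt.1 hξ0
      have : k = k0 := by
        rcases lt_trichotomy ξ p0 with h | h | h
        · rw [← hk ξ p0 (by linarith) le_rfl h.le (by linarith) h,
            hk0 ξ p0 (by linarith) h.le le_rfl (by linarith) h]
        · rw [← hk p0 (p0 + r / 2) (by linarith) (by linarith) (by linarith) (by linarith)
            (by linarith), hk0 p0 (p0 + r / 2) (by linarith) le_rfl (by linarith) (by linarith)
            (by linarith)]
        · rw [← hk p0 ξ (by linarith) h.le le_rfl (by linarith) h,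
            hk0 p0 ξ (by linarith) le_rfl h.le (by linarith) h]
      rw [← this]
      exact hk
    refine (hNmem p0).1 hp0 ⟨r1, hr1, k0, fun q k' hq hv => ?_⟩
    have hq' := abs_lt.1 hq
    by_cases hqN : q ∈ N
    · exact hv.2.uniq ⟨r, hr, same q hqN hq⟩
    · rcases lt_trichotomy q p0 with h | h | h
      · -- `q` to the left of `p0`
        obtain ⟨b, hbe⟩ : ∃ b, b = sInf (N ∩ Icc q p0) := ⟨_, rfl⟩
        have hcomp : IsCompact (N ∩ Icc q p0) := isCompact_Icc.inter_left hNc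
        have hbm : b ∈ N ∩ Icc q p0 := by
          rw [hbe]; exact hcomp.sInf_mem ⟨p0, hp0, h.le, le_rfl⟩
        have hqb : q < b := lt_of_le_of_ne hbm.2.1 fun e => hqN (by rw [e]; exact hbm.1)
        have hbd : ∀ s, q ≤ s → s < b → LC c θ s := by
          intro s s1 s2
          by_contra hs
          have : b ≤ s := by
            rw [hbe]
            exact csInf_le hcomp.bddBelow ⟨(hNmem s).2 hs, s1, by linarith [hbm.2.2]⟩
          linarith
        have hb0 : |b - p0| < r1 := by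
          rw [abs_lt]; constructor <;> linarith [hbm.2.2]
        obtain ⟨z, z1, z2, z3, z4⟩ := hleft b q hqb (by linarith [hbm.2.2])
          (hPN b hbm.1 (hb0.trans_le l1))
        obtain ⟨ρz, hρz, hPz⟩ := z3
        obtain ⟨rz, hrz, -, -, hz⟩ := pc_const L J hl A hρz
        obtain ⟨kz, hkz⟩ := hz z hPz
        have hvz : Val c θ z kz := ⟨Or.inl ⟨ρz, hρz, hPz⟩, rz, hrz, hkz⟩
        have hbp := hbm.2.2
        have e1 : kz = k0 := by
          obtain ⟨y, y1, y2, y3⟩ : ∃ y, z < y ∧ y < z + rz ∧ y ≤ b :=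
            ⟨min (z + rz / 2) b, lt_min (by linarith) z2, (min_le_left _ _).trans_lt (by linarith),
              min_le_right _ _⟩
          rw [← hkz z y (by linarith) le_rfl y1.le y2 y1,
            ← same b hbm.1 hb0 z b (by linarith) z2.le le_rfl (by linarith) z2]
          refine floor_pre (V := Ioc z b) isPreconnected_Ioc (f := fun y => θ z y)
            (A.cont.comp (f := fun y : ℝ => ((z, y) : ℝ × ℝ)) (by fun_prop) fun y hy =>
              ⟨hy.1, by linarith [hy.2]⟩) (fun y hy => ?_) ⟨y1, y3⟩ ⟨z2, le_rfl⟩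
          exact sin_ne L A hy.1 (by linarith [hy.2]) (z4 y hy.1 hy.2)
        rw [← e1]
        exact chain (by linarith) (fun s hs => hbd s hs.1 (by linarith [hs.2])) dense hv hvz
      · exact absurd (by rw [h]; exact hp0) hqN
      · -- `q` to the right of `p0`
        obtain ⟨a, hae⟩ : ∃ a, a = sSup (N ∩ Icc p0 q) := ⟨_, rfl⟩
        have hcomp : IsCompact (N ∩ Icc p0 q) := isCompact_Icc.inter_left hNc
        have ham : a ∈ N ∩ Icc p0 q := by
          rw [hae]; exact hcomp.sSup_mem ⟨p0, hp0, le_rfl, h.le⟩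
        have haq : a < q := lt_of_le_of_ne ham.2.2 fun e => hqN (by rw [← e]; exact ham.1)
        have had : ∀ s, a < s → s ≤ q → LC c θ s := by
          intro s s1 s2
          by_contra hs
          have : s ≤ a := by
            rw [hae]
            exact le_csSup hcomp.bddAbove ⟨(hNmem s).2 hs, by linarith [ham.2.1], s2⟩
          linarith
        have ha0 : |a - p0| < r1 := by
          rw [abs_lt]; constructor <;> linarith [ham.2.1]
        obtain ⟨z, z1, z2, z3, z4⟩ := hright a q haq (by linarith [ham.2.1])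
          (hPN a ham.1 (ha0.trans_le l1))
        obtain ⟨ρz, hρz, hPz⟩ := z3
        obtain ⟨rz, hrz, -, -, hz⟩ := pc_const L J hl A hρz
        obtain ⟨kz, hkz⟩ := hz z hPz
        have hvz : Val c θ z kz := ⟨Or.inl ⟨ρz, hρz, hPz⟩, rz, hrz, hkz⟩
        have hap := ham.2.1
        have e1 : kz = k0 := by
          obtain ⟨x, x1, x2, x3⟩ : ∃ x, x < z ∧ z - rz < x ∧ a ≤ x :=
            ⟨max (z - rz / 2) a, max_lt (by linarith) z1, (by linarith : z - rz < z - rz / 2).trans_le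
              (le_max_left _ _), le_max_right _ _⟩
          rw [← hkz x z x2 x1.le le_rfl (by linarith) x1,
            ← same a ham.1 ha0 a z (by linarith) le_rfl z1.le (by linarith) z1]
          refine floor_pre (V := Ico a z) isPreconnected_Ico (f := fun x => θ x z)
            (A.cont.comp (f := fun x : ℝ => ((x, z) : ℝ × ℝ)) (by fun_prop) fun x hx =>
              ⟨hx.2, by linarith [hx.1]⟩) (fun x hx => ?_) ⟨x3, x1⟩ ⟨le_rfl, z1⟩
          exact sin_ne L A hx.2 (by linarith [hx.1]) (z4 x hx.1 hx.2)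
        rw [← e1]
        exact (chain (by linarith) (fun s hs => had s (by linarith [hs.1]) hs.2) dense hvz hv).symm

end Pool.Agent.Helper584_PC
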