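import Pool.Agent.Helper584_PC.Bai

/-! Corners and cusps as exceptional points, and the final form of the theorem. -/

set_option autoImplicit false
open Complex Set Topology Metric

namespace Pool.Agent.Helper584_PC

open Pool.Agent.H763R2 Pool.Agent.H763R2.An Pool.Agent.W675.Peg Pool.Agent.TH569.Peg
open Pool.Agent.Y535.PEG Pool.Agent.Helper584_CU
open Pool.Agent.H763R2.Dm (NoSq)

variable {c : ℝ → ℂ}

theorem Ex.of_cone {s : ℝ} (h : Cone c s) : Ex c s := by
  obtain ⟨ρ, hρ, w, hw⟩ := h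
  refine ⟨⟨ρ / 2, by positivity, fun t ht _ => ⟨ρ / 2, by positivity, w, fun x y hx hy hxy => ?_⟩⟩,
    Or.inl (cone_mon ⟨ρ, hρ, w, hw⟩), Or.inl ⟨ρ, hρ, w, hw⟩⟩
  exact hw x y (near_tr (by linarith) hx) (near_tr (by linarith) hy) hxy

theorem Ex.of_csp (hc : Continuous c) (hl : ∀ x y, ‖c x - c y‖ ≤ |x - y|) {s : ℝ}
    (h : Csp c s) : Ex c s := by
  refine ⟨h.nbhd, Or.inr h, Or.inr ?_⟩
  rintro ⟨ρ', hρ', hP⟩
  obtain ⟨ρ, hρ, w, h2, h1⟩ := h
  obtain ⟨r, hr, r1, r2⟩ : ∃ r > 0, r ≤ ρ ∧ r ≤ ρ' := ⟨min ρ ρ', by positivity, min_le_left _ _,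
    min_le_right _ _⟩
  have hf : Continuous fun t => (w * (c t - c s)).re := by fun_prop
  have f0 : (w * (c s - c s)).re = 0 := by simp
  have pr : ∀ y, s < y → y < s + r → 5 * |(w * (c y - c s)).im| < 2 * (w * (c y - c s)).re :=
    fun y a b => h2 s y le_rfl a (by linarith)
  have pl : ∀ x, s - r < x → x < s → 5 * |(w * (c x - c s)).im| < 2 * (w * (c x - c s)).re :=
    fun x a b => h1 x s (by linarith) b le_rfl
  have q1 := pr (s + r / 2) (by linarith) (by linarith)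
  have q2 := pl (s - r / 2) (by linarith) (by linarith)
  have q1' := abs_nonneg (w * (c (s + r / 2) - c s)).im
  have q2' := abs_nonneg (w * (c (s - r / 2) - c s)).im
  obtain ⟨a, ha, a1, a2⟩ : ∃ a > 0, a ≤ (w * (c (s + r / 2) - c s)).re ∧
      a ≤ (w * (c (s - r / 2) - c s)).re :=
    ⟨min (w * (c (s + r / 2) - c s)).re (w * (c (s - r / 2) - c s)).re,
      lt_min (by linarith) (by linarith), min_le_left _ _, min_le_right _ _⟩
  obtain ⟨y, ⟨y1, y2⟩, y3⟩ := intermediate_value_Icc (a := s) (b := s + r / 2) (by linarith)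
    hf.continuousOn (show a ∈ Icc (w * (c s - c s)).re _ from ⟨by rw [f0]; exact ha.le, a1⟩)
  obtain ⟨x, ⟨x1, x2⟩, x3⟩ := intermediate_value_Icc' (a := s - r / 2) (b := s) (by linarith)
    hf.continuousOn (show a ∈ Icc (w * (c s - c s)).re _ from ⟨by rw [f0]; exact ha.le, a2⟩)
  simp only at x3 y3
  have ys : s < y := lt_of_le_of_ne y1 fun e => by rw [← e, f0] at y3; linarith
  have xs : x < s := lt_of_le_of_ne x2 fun e => by rw [e, f0] at x3; linarith
  have py := pr y ys (by linarith)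
  have px := pl x (by linarith) xs
  rw [y3] at py
  rw [x3] at px
  have k1 : ‖w * (c y - c x)‖ ≤ 4 / 5 * a := by
    have e : w * (c y - c x) = w * (c y - c s) - w * (c x - c s) := by ring
    have hre : (w * (c y - c x)).re = 0 := by rw [e, sub_re, y3, x3, sub_self]
    have h3 := norm_le_abs_re_add_abs_im (w * (c y - c x))
    rw [hre, abs_zero, zero_add] at h3
    refine h3.trans ?_
    rw [e, sub_im]
    refine (abs_sub _ _).trans ?_
    linarith
  have k2 : a ≤ ‖w‖ * (y - s) := by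
    have h3 := (le_abs_self _).trans (abs_re_le_norm (w * (c y - c s)))
    rw [y3, norm_mul] at h3
    have h4 := hl y s
    rw [abs_of_pos (by linarith)] at h4
    exact h3.trans (mul_le_mul_of_nonneg_left h4 (norm_nonneg _))
  have k3 : a ≤ ‖w‖ * (s - x) := by
    have h3 := (le_abs_self _).trans (abs_re_le_norm (w * (c x - c s)))
    rw [x3, norm_mul] at h3
    have h4 := hl x s
    rw [abs_of_neg (by linarith), neg_sub] at h4
    exact h3.trans (mul_le_mul_of_nonneg_left h4 (norm_nonneg _))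
  have k4 := hP x y (by linarith) xs.le ys.le (by linarith)
  have k5 := mul_le_mul_of_nonneg_left k4 (norm_nonneg w)
  rw [norm_mul] at k1
  nlinarith

/-- strong one-sided tangents -/
def OST (c : ℝ → ℂ) (s : ℝ) (u v : ℂ) : Prop := ‖u‖ = 1 ∧ ‖v‖ = 1 ∧ ∀ ε > 0, ∃ ρ > 0,
  (∀ x y : ℝ, s ≤ x → x < y → y < s + ρ → ‖(c y - c x) / (‖c y - c x‖ : ℂ) - u‖ < ε) ∧
  (∀ x y : ℝ, s - ρ < x → x < y → y ≤ s → ‖(c y - c x) / (‖c y - c x‖ : ℂ) - v‖ < ε)

theorem dir_eq {z t : ℂ} {ε : ℝ} (h : ‖z / (‖z‖ : ℂ) - t‖ < ε) (hz : z ≠ 0) :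
    ∃ e : ℂ, ‖e‖ < ε ∧ z = (‖z‖ : ℂ) * (t + e) := by
  refine ⟨z / (‖z‖ : ℂ) - t, h, ?_⟩
  have : (‖z‖ : ℂ) ≠ 0 := by exact_mod_cast (norm_pos_iff.2 hz).ne'
  field_simp
  ring

theorem dir_nz {z t : ℂ} (ht : ‖t‖ = 1) (h : ‖z / (‖z‖ : ℂ) - t‖ < 1) : z ≠ 0 := by
  rintro rfl
  simp [ht] at h

theorem conj_self {u : ℂ} (hu : ‖u‖ = 1) : (starRingEnd ℂ) u * u = 1 := by
  rw [mul_comm, mul_conj, normSq_eq_norm_sq, hu]; norm_num

/-- chords with direction close to `t` lie in the quarter plane of `w` -/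
theorem quarter {z t w : ℂ} {ε : ℝ} (ht : ‖t‖ = 1) (h1 : ε ≤ 1)
    (h : ‖z / (‖z‖ : ℂ) - t‖ < ε) (hw : |(w * t).im| + 2 * (‖w‖ * ε) < (w * t).re) :
    |(w * z).im| < (w * z).re := by
  have hz := dir_nz ht (h.trans_le h1)
  obtain ⟨e, he, e1⟩ := dir_eq h hz
  have hn : 0 < ‖z‖ := norm_pos_iff.2 hz
  have e2 : w * z = (‖z‖ : ℂ) * (w * t + w * e) := by
    have h3 : (‖z‖ : ℂ) * (w * t + w * e) = w * ((‖z‖ : ℂ) * (t + e)) := by ring
    rw [h3, ← e1]
  have k1 := (abs_le.1 (abs_re_le_norm (w * e))).1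
  have k2 := abs_im_le_norm (w * e)
  have k3 : ‖w * e‖ ≤ ‖w‖ * ε := by
    rw [norm_mul]; exact mul_le_mul_of_nonneg_left he.le (norm_nonneg _)
  have k4 : |(w * t + w * e).im| < (w * t + w * e).re := by
    rw [add_im, add_re]
    exact (abs_add_le _ _).trans_lt (by linarith)
  rw [e2, im_ofReal_mul, re_ofReal_mul, abs_mul, abs_of_pos hn]
  exact mul_lt_mul_of_pos_left k4 hn

theorem OST.cone_nbhd {s : ℝ} {u v : ℂ} (h : OST c s u v) :
    ∃ ρ > 0, ∀ t, |t - s| < ρ → t ≠ s → Cone c t := by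
  obtain ⟨hu, hv, H⟩ := h
  obtain ⟨ρ, hρ, h2, h1⟩ := H (1 / 10) (by norm_num)
  have q : ∀ t : ℂ, ‖t‖ = 1 → |((starRingEnd ℂ) t * t).im| + 2 * (‖(starRingEnd ℂ) t‖ * (1 / 10)) <
      ((starRingEnd ℂ) t * t).re := fun t ht => by
    rw [conj_self ht, RCLike.norm_conj, ht]; norm_num
  refine ⟨ρ, hρ, fun t ht hts => ?_⟩
  have hts' := abs_lt.1 ht
  rcases lt_or_gt_of_ne hts with h | h
  · obtain ⟨r, hr, r1, r2⟩ : ∃ r > 0, r ≤ s - t ∧ r ≤ t - (s - ρ) :=
      ⟨min (s - t) (t - (s - ρ)), lt_min (by linarith) (by linarith), min_le_left _ _,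
        min_le_right _ _⟩
    refine ⟨r, hr, (starRingEnd ℂ) v, fun x y hx hy hxy => ?_⟩
    have hx' := abs_lt.1 hx
    have hy' := abs_lt.1 hy
    exact quarter hv (by norm_num) (h1 x y (by linarith) hxy (by linarith)) (q v hv)
  · obtain ⟨r, hr, r1, r2⟩ : ∃ r > 0, r ≤ t - s ∧ r ≤ s + ρ - t :=
      ⟨min (t - s) (s + ρ - t), lt_min (by linarith) (by linarith), min_le_left _ _,
        min_le_right _ _⟩
    refine ⟨r, hr, (starRingEnd ℂ) u, fun x y hx hy hxy => ?_⟩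
    have hx' := abs_lt.1 hx
    have hy' := abs_lt.1 hy
    exact quarter hu (by norm_num) (h2 x y (by linarith) hxy (by linarith)) (q u hu)

theorem OST.cone_or (hl : ∀ x y, ‖c x - c y‖ ≤ |x - y|) {s : ℝ} {u v : ℂ} (h : OST c s u v) :
    Cone c s ∨ ¬ ∃ ρ > 0, Pc c (9 / 10) s ρ := by
  obtain ⟨hu, hv, H⟩ := h
  have hns : ((starRingEnd ℂ) u * v).re ^ 2 + ((starRingEnd ℂ) u * v).im ^ 2 = 1 := by
    have e := normSq_apply ((starRingEnd ℂ) u * v)
    rw [normSq_eq_norm_sq, norm_mul, RCLike.norm_conj, hu, hv] at e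
    nlinarith
  rcases lt_or_ge 0 ((starRingEnd ℂ) u * v).re with ha | ha
  · left
    obtain ⟨w, hw⟩ : ∃ w, w = (starRingEnd ℂ) u + (starRingEnd ℂ) v := ⟨_, rfl⟩
    have hwn : ‖w‖ ≤ 2 := by
      rw [hw]
      refine (norm_add_le _ _).trans ?_
      rw [RCLike.norm_conj, RCLike.norm_conj, hu, hv]; norm_num
    have hb : |((starRingEnd ℂ) u * v).im| ≤ 1 := by
      rw [← sq_le_one_iff_abs_le_one]; nlinarith
    have hvu : (starRingEnd ℂ) v * u = (starRingEnd ℂ) ((starRingEnd ℂ) u * v) := by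
      rw [map_mul, conj_conj]; ring
    have wv : w * v = 1 + (starRingEnd ℂ) u * v := by
      rw [hw, add_mul, conj_self hv]; ring
    have wu : w * u = 1 + (starRingEnd ℂ) ((starRingEnd ℂ) u * v) := by
      rw [hw, add_mul, conj_self hu, hvu]
    have a1 : ((starRingEnd ℂ) u * v).re ≤ 1 := by nlinarith
    obtain ⟨ρ, hρ, h2, h1⟩ := H (((starRingEnd ℂ) u * v).re / 8) (by positivity)
    have mv : |(w * v).im| + 2 * (‖w‖ * (((starRingEnd ℂ) u * v).re / 8)) < (w * v).re := by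
      rw [wv, add_im, add_re, one_im, one_re, zero_add]
      nlinarith
    have mu : |(w * u).im| + 2 * (‖w‖ * (((starRingEnd ℂ) u * v).re / 8)) < (w * u).re := by
      rw [wu, add_im, add_re, one_im, one_re, zero_add, conj_im, conj_re, abs_neg]
      nlinarith
    refine ⟨ρ, hρ, w, fun x y hx hy hxy => ?_⟩
    have hx' := abs_lt.1 hx
    have hy' := abs_lt.1 hy
    rcases le_or_gt s x with h | h
    · exact quarter hu (by linarith) (h2 x y h hxy (by linarith)) mu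
    · rcases le_or_gt y s with h' | h'
      · exact quarter hv (by linarith) (h1 x y (by linarith) hxy h') mv
      · have b1 := quarter hv (by linarith) (h1 x s (by linarith) h le_rfl) mv
        have b2 := quarter hu (by linarith) (h2 s y le_rfl h' (by linarith)) mu
        have e : w * (c y - c x) = w * (c s - c x) + w * (c y - c s) := by ring
        rw [e, add_im, add_re]
        exact (abs_add_le _ _).trans_lt (by linarith)
  · right
    rintro ⟨ρ', hρ', hP⟩
    obtain ⟨ρ, hρ, h2, h1⟩ := H (1 / 100) (by norm_num)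
    obtain ⟨τ, hτ, t1, t2⟩ : ∃ τ > 0, τ < ρ ∧ τ < ρ' := by
      refine ⟨min ρ ρ' / 2, by positivity, ?_, ?_⟩
      · linarith [min_le_left ρ ρ', lt_min hρ hρ']
      · linarith [min_le_right ρ ρ', lt_min hρ hρ']
    have k2 := h2 s (s + τ) le_rfl (by linarith) (by linarith)
    have k1 := h1 (s - τ) s (by linarith) (by linarith) le_rfl
    obtain ⟨e2, he2, f2⟩ := dir_eq k2 (dir_nz hu (k2.trans (by norm_num)))
    obtain ⟨e1, he1, f1⟩ := dir_eq k1 (dir_nz hv (k1.trans (by norm_num)))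
    have a2 := hl (s + τ) s
    have a1 := hl s (s - τ)
    rw [add_sub_cancel_left, abs_of_pos hτ] at a2
    rw [sub_sub_cancel, abs_of_pos hτ] at a1
    obtain ⟨a, hae⟩ : ∃ a, a = ‖c (s + τ) - c s‖ := ⟨_, rfl⟩
    obtain ⟨b, hbe⟩ : ∃ b, b = ‖c s - c (s - τ)‖ := ⟨_, rfl⟩
    rw [← hae] at a2 f2
    rw [← hbe] at a1 f1
    have ha0 : 0 ≤ a := by rw [hae]; exact norm_nonneg _
    have hb0 : 0 ≤ b := by rw [hbe]; exact norm_nonneg _
    have key : ‖(a : ℂ) * u + (b : ℂ) * v‖ ≤ 3 / 2 * τ := by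
      rw [← sq_le_sq₀ (norm_nonneg _) (by positivity), ← normSq_eq_norm_sq, normSq_add, normSq_mul,
        normSq_mul, normSq_eq_norm_sq u, normSq_eq_norm_sq v, hu, hv, normSq_ofReal, normSq_ofReal]
      have e : ((a : ℂ) * u * (starRingEnd ℂ) ((b : ℂ) * v)).re =
          a * b * ((starRingEnd ℂ) u * v).re := by
        simp only [map_mul, conj_ofReal, mul_re, mul_im, conj_re, conj_im, ofReal_re, ofReal_im]
        ring
      rw [e]
      have hab : a * b * ((starRingEnd ℂ) u * v).re ≤ 0 :=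
        mul_nonpos_of_nonneg_of_nonpos (mul_nonneg ha0 hb0) ha
      nlinarith
    have k3 : ‖c (s + τ) - c (s - τ)‖ ≤ 3 / 2 * τ + (a * (1 / 100) + b * (1 / 100)) := by
      have e : c (s + τ) - c (s - τ) =
          ((a : ℂ) * u + (b : ℂ) * v) + ((a : ℂ) * e2 + (b : ℂ) * e1) := by
        have : c (s + τ) - c (s - τ) = (c (s + τ) - c s) + (c s - c (s - τ)) := by ring
        rw [this, f2, f1]; ring
      rw [e]
      refine (norm_add_le _ _).trans (add_le_add key ((norm_add_le _ _).trans (add_le_add ?_ ?_)))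
      · rw [norm_mul, norm_real, Real.norm_eq_abs, abs_of_nonneg ha0]
        exact mul_le_mul_of_nonneg_left he2.le ha0
      · rw [norm_mul, norm_real, Real.norm_eq_abs, abs_of_nonneg hb0]
        exact mul_le_mul_of_nonneg_left he1.le hb0
    have k4 := hP (s - τ) (s + τ) (by linarith) (by linarith) (by linarith) (by linarith)
    linarith

/-- chord-arc condition from the derivative -/
theorem Pc.of_deriv {s : ℝ} {v : ℂ} (hv : ‖v‖ = 1) (h : HasDerivAt c v s) :
    ∃ ρ > 0, Pc c (99 / 100) s ρ := by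
  have h1 := (hasDerivAt_iff_isLittleO.1 h).bound (show (0:ℝ) < 1 / 100 by norm_num)
  obtain ⟨ρ, hρ, H⟩ := Metric.eventually_nhds_iff.1 h1
  refine ⟨ρ, hρ, fun x y a b d e => ?_⟩
  have k1 := H (y := x) (by rw [Real.dist_eq, abs_lt]; constructor <;> linarith)
  have k2 := H (y := y) (by rw [Real.dist_eq, abs_lt]; constructor <;> linarith)
  rw [Real.norm_eq_abs, abs_of_nonpos (by linarith)] at k1
  rw [Real.norm_eq_abs, abs_of_nonneg (by linarith)] at k2
  have e1 : ((y - x : ℝ) : ℂ) * v = (c y - c x) - (c y - c s - (y - s) • v) +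
      (c x - c s - (x - s) • v) := by
    simp only [real_smul]; push_cast; ring
  have e2 : ‖((y - x : ℝ) : ℂ) * v‖ = y - x := by
    rw [norm_mul, hv, mul_one, norm_real, Real.norm_eq_abs, abs_of_nonneg (by linarith)]
  have e3 : y - x ≤ ‖c y - c x‖ + ‖c y - c s - (y - s) • v‖ + ‖c x - c s - (x - s) • v‖ := by
    rw [← e2, e1]
    exact (norm_add_le _ _).trans (add_le_add (norm_sub_le _ _) le_rfl)
  linarith

end Pool.Agent.Helper584_PC
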