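import Pool.Agent.Helper584_PC.Rec
import Pool.Agent.Helper584_CU.Glob

/-! Points of a rectifiable curve at which chords are almost as long as arcs. -/

set_option autoImplicit false
open Complex Set Topology Metric

namespace Pool.Agent.Helper584_PC

open Pool.Agent.H763R2 Pool.Agent.H763R2.An Pool.Agent.W675.Peg Pool.Agent.TH569.Peg
open Pool.Agent.Y535.PEG
open Pool.Agent.H763R2.Dm (NoSq)

variable {c : ℝ → ℂ}

/-- the chord-arc condition at the parameter `p`, with radius `ρ` -/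
def Pc (c : ℝ → ℂ) (κ p ρ : ℝ) : Prop := ∀ x y : ℝ, p - ρ < x → x ≤ p → p ≤ y → y < p + ρ →
  κ * (y - x) ≤ ‖c y - c x‖

theorem Pc.mono {κ κ' p ρ ρ' : ℝ} (h : Pc c κ p ρ) (h1 : κ' ≤ κ) (h2 : ρ' ≤ ρ) :
    Pc c κ' p ρ' := fun x y a b d e =>
  (mul_le_mul_of_nonneg_right h1 (by linarith)).trans (h x y (by linarith) b d (by linarith))

/-- in an almost straight window the vertex of a square is not on the curve -/
theorem off3 (hl : ∀ x y, ‖c x - c y‖ ≤ |x - y|) {x y t s1 s2 : ℝ} (hxy : x < y) (h1 : s1 ≤ x)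
    (h2 : y ≤ s2) (t1 : s1 ≤ t) (t2 : t ≤ s2)
    (hexc : (s2 - s1) - ‖c s2 - c s1‖ ≤ 9 / 40 * (y - x)) (hty : |t - y| ≤ 9 / 8 * (y - x)) :
    c t ≠ CC c x y := by
  intro he
  obtain ⟨R, hR⟩ : ∃ R, R = y - x := ⟨_, rfl⟩
  have hR0 : 0 < R := by rw [hR]; linarith
  rw [← hR] at hexc hty
  obtain ⟨N, hN⟩ : ∃ N, N = ‖c s2 - c s1‖ := ⟨_, rfl⟩
  have hN0 : 0 < N := by linarith
  have hNc : (N : ℂ) ≠ 0 := by exact_mod_cast hN0.ne'
  obtain ⟨w, hw⟩ : ∃ w : ℂ, w = (starRingEnd ℂ) (c s2 - c s1) / N := ⟨_, rfl⟩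
  have hw1 : ‖w‖ = 1 := by
    rw [hw, norm_div, RCLike.norm_conj, ← hN, norm_real, Real.norm_eq_abs, abs_of_pos hN0,
      div_self hN0.ne']
  have hwN : w * (c s2 - c s1) = N := by
    rw [hw, div_mul_eq_mul_div, mul_comm, mul_conj, normSq_eq_norm_sq, ← hN]
    push_cast
    field_simp
  have re_le : ∀ a b, (w * (c b - c a)).re ≤ |b - a| := fun a b => by
    refine (le_abs_self _).trans ((abs_re_le_norm _).trans ?_)
    rw [norm_mul, hw1, one_mul]
    exact hl b a
  have inner : ∀ a b, s1 ≤ a → a ≤ b → b ≤ s2 → (b - a) - 9 / 40 * R ≤ (w * (c b - c a)).re := by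
    intro a b ha hab hb
    have e : w * (c s2 - c s1) = w * (c s2 - c b) + w * (c b - c a) + w * (c a - c s1) := by ring
    rw [hwN] at e
    have e' := congrArg Complex.re e
    rw [ofReal_re, add_re, add_re] at e'
    have k1 := re_le b s2
    have k2 := re_le s1 a
    rw [abs_of_nonneg (by linarith)] at k1 k2
    linarith
  have a1 := inner x y h1 hxy.le h2
  have hQ : w * (c t - c y) = I * (w * (c y - c x)) := by
    rw [he, CC_eq]; ring
  have hre : (w * (c t - c y)).re = -(w * (c y - c x)).im := by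
    rw [hQ]; simp
  have him : (w * (c t - c y)).im = (w * (c y - c x)).re := by
    rw [hQ]; simp
  have hnorm : (w * (c t - c y)).re ^ 2 + (w * (c t - c y)).im ^ 2 ≤ |t - y| ^ 2 := by
    have : ‖w * (c t - c y)‖ ≤ |t - y| := by
      rw [norm_mul, hw1, one_mul]; exact hl t y
    have e := Complex.normSq_apply (w * (c t - c y))
    rw [normSq_eq_norm_sq] at e
    have h3 : ‖w * (c t - c y)‖ ^ 2 ≤ |t - y| ^ 2 := pow_le_pow_left₀ (norm_nonneg _) this 2
    nlinarith
  rw [him] at hnorm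
  have hT0 := abs_nonneg (t - y)
  have key : |t - y| - 9 / 40 * R ≤ |(w * (c t - c y)).re| := by
    rcases le_total y t with h | h
    · rw [abs_of_nonneg (by linarith : (0:ℝ) ≤ t - y)]
      exact (inner y t (by linarith) h t2).trans (le_abs_self _)
    · rw [abs_of_nonpos (by linarith : t - y ≤ 0)]
      have := inner t y t1 h h2
      rw [show w * (c y - c t) = -(w * (c t - c y)) by ring, neg_re] at this
      have h4 := neg_le_abs ((w * (c t - c y)).re)
      linarith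
  have hsq : (w * (c t - c y)).re ^ 2 = |(w * (c t - c y)).re| ^ 2 := (sq_abs _).symm
  rw [hsq] at hnorm
  have hR1 : y - x = R := hR.symm
  rw [hR1] at a1
  rcases le_total (9 / 40 * R) |t - y| with h | h
  · nlinarith [mul_le_mul_of_nonneg_right hty hR0.le, abs_nonneg (w * (c t - c y)).re]
  · nlinarith [abs_nonneg (w * (c t - c y)).re, sq_nonneg (|(w * (c t - c y)).re|)]

theorem CC_sub_y (x y : ℝ) : CC c x y - c y = I * (c y - c x) := by rw [CC_eq]; ring

theorem norm_CC_y (hl : ∀ x y, ‖c x - c y‖ ≤ |x - y|) {x y : ℝ} (hxy : x ≤ y) :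
    ‖CC c x y - c y‖ ≤ y - x := by
  rw [CC_sub_y, norm_mul, norm_I, one_mul]
  refine (hl y x).trans ?_
  rw [abs_of_nonneg (by linarith)]

theorem norm_CC_x (hl : ∀ x y, ‖c x - c y‖ ≤ |x - y|) {x y : ℝ} (hxy : x ≤ y) :
    ‖CC c x y - c x‖ ≤ 29 / 20 * (y - x) := by
  have e : CC c x y - c x = (1 + I) * (c y - c x) := by rw [CC_eq]; ring
  have h1 : ‖(1 + I : ℂ)‖ ≤ 29 / 20 := by
    rw [← sq_le_sq₀ (norm_nonneg _) (by norm_num), ← normSq_eq_norm_sq, normSq_apply]
    norm_num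
  rw [e, norm_mul]
  have h2 := hl y x
  rw [abs_of_nonneg (by linarith)] at h2
  exact mul_le_mul h1 h2 (norm_nonneg _) (by norm_num)

/-- near a chord-arc point the vertex is off the curve -/
theorem Pc_off (L : Loop c) (J : Inj c) (hl : ∀ x y, ‖c x - c y‖ ≤ |x - y|) {ρ0 : ℝ}
    (hρ0 : 0 < ρ0) : ∃ r > 0, r ≤ ρ0 / 2 ∧ r ≤ 1 / 2 ∧ ∀ p, Pc c (9 / 10) p ρ0 →
      ∀ x y, p - r < x → x ≤ p → p ≤ y → y < p + r → x < y → CC c x y ∉ range c := by
  obtain ⟨ρ1, hρ1, hn⟩ := near_par L J (δ := ρ0 / 2) (by positivity)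
  obtain ⟨r, hr, r1, r2, r3⟩ : ∃ r > 0, r ≤ ρ0 / 2 ∧ r ≤ 1 / 2 ∧ r ≤ ρ1 / 2 :=
    ⟨min (min (ρ0 / 2) (1 / 2)) (ρ1 / 2), by positivity,
      (min_le_left _ _).trans (min_le_left _ _), (min_le_left _ _).trans (min_le_right _ _),
      min_le_right _ _⟩
  refine ⟨r, hr, r1, r2, fun p hP x y hx1 hx2 hy1 hy2 hxy => ?_⟩
  rintro ⟨t0, ht0⟩
  have n1 := norm_CC_y hl hxy.le
  obtain ⟨n, e, he, hte⟩ := hn t0 y (by rw [ht0]; linarith)
  obtain ⟨t, ht⟩ : ∃ t, t = y + e := ⟨_, rfl⟩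
  have hct : c t = CC c x y := by
    rw [← ht0, hte, ht, L.per_int]
  have he' := abs_lt.1 he
  have n2 : ‖c t - c y‖ ≤ y - x := by rw [hct]; exact n1
  have n3 : ‖c t - c x‖ ≤ 29 / 20 * (y - x) := by rw [hct]; exact norm_CC_x hl hxy.le
  rcases le_total t p with h | h
  · have k1 := hP t y (by linarith) h hy1 (by linarith)
    rw [norm_sub_rev] at k1
    have hty : |t - y| ≤ 9 / 8 * (y - x) := by
      rw [abs_of_nonpos (by linarith)]; linarith
    rcases le_total t x with h' | h'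
    · refine off3 hl hxy h' le_rfl le_rfl (by linarith) ?_ hty hct
      have := hP t y (by linarith) h hy1 (by linarith)
      linarith
    · refine off3 hl hxy le_rfl le_rfl h' (by linarith) ?_ hty hct
      have := hP x y (by linarith) hx2 hy1 (by linarith)
      linarith
  · have k1 := hP x t (by linarith) hx2 h (by linarith)
    have hty : |t - y| ≤ 9 / 8 * (y - x) := by
      rw [abs_le]; constructor <;> linarith
    rcases le_total t y with h' | h'
    · refine off3 hl hxy le_rfl le_rfl (by linarith) h' ?_ hty hct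
      have := hP x y (by linarith) hx2 hy1 (by linarith)
      linarith
    · refine off3 hl hxy le_rfl h' (by linarith) le_rfl ?_ hty hct
      linarith

end Pool.Agent.Helper584_PC
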