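import Mathlib

/-! A point at which a non-decreasing function with small total increase has small difference
quotients on both sides. -/

set_option autoImplicit false
open Set

namespace Pool.Agent.Helper584_PC

/-- a function that is locally non-increasing is non-increasing -/
theorem loc_anti {Q : ℝ → ℝ} {a b : ℝ} (hab : a ≤ b)
    (h : ∀ z, a ≤ z → z ≤ b → ∃ r > 0, ∀ s t, a ≤ s → s ≤ t → t ≤ b → z - r < s → t < z + r →
      Q t ≤ Q s) : Q b ≤ Q a := by
  obtain ⟨S, hS⟩ : ∃ S : Set ℝ, S = {t | a ≤ t ∧ t ≤ b ∧ Q t ≤ Q a} := ⟨_, rfl⟩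
  have ha : a ∈ S := by rw [hS]; exact ⟨le_rfl, hab, le_rfl⟩
  have hbd : BddAbove S := ⟨b, fun t ht => by rw [hS] at ht; exact ht.2.1⟩
  obtain ⟨T, hT⟩ : ∃ T, T = sSup S := ⟨_, rfl⟩
  have hle : ∀ t ∈ S, t ≤ T := fun t ht => by rw [hT]; exact le_csSup hbd ht
  have haT := hle a ha
  have hTb : T ≤ b := by
    rw [hT]; exact csSup_le ⟨a, ha⟩ fun t ht => by rw [hS] at ht; exact ht.2.1
  obtain ⟨r, hr, hQ⟩ := h T haT hTb
  obtain ⟨t, htS, ht⟩ : ∃ t ∈ S, T - r < t :=
    exists_lt_of_lt_csSup ⟨a, ha⟩ (by rw [← hT]; linarith)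
  have htT := hle t htS
  rw [hS] at htS
  obtain ⟨t1, t2, t3⟩ := htS
  have hm : min (T + r / 2) b ∈ S := by
    rw [hS]
    have h1 : t ≤ min (T + r / 2) b := le_min (by linarith) t2
    refine ⟨by linarith, min_le_right _ _, (hQ t _ t1 h1 (min_le_right _ _) ht ?_).trans t3⟩
    exact (min_le_left _ _).trans_lt (by linarith)
  have hmT := hle _ hm
  rcases le_total (T + r / 2) b with h1 | h1
  · rw [min_eq_left h1] at hmT; linarith
  · rw [min_eq_right h1, hS] at hm; exact hm.2.2

theorem exRec {e : ℝ → ℝ} {A B : ℝ} (hAB : A < B)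
    (hmono : ∀ s t, A ≤ s → s ≤ t → t ≤ B → e s ≤ e t)
    (hlip : ∀ s t, A ≤ s → s ≤ t → t ≤ B → e t - e s ≤ 2 * (t - s))
    (htot : e B - e A ≤ (B - A) / 100) :
    ∃ q, A + (B - A) / 3 ≤ q ∧ q ≤ A + 2 * (B - A) / 3 ∧
      ∀ t, A ≤ t → t ≤ B → |e t - e q| ≤ |t - q| / 10 := by
  by_contra hcon
  push Not at hcon
  obtain ⟨h, hh⟩ : ∃ h : ℝ → ℝ, ∀ t, h t = t / 10 - e t := ⟨_, fun _ => rfl⟩
  have up : ∀ s t, A ≤ s → s ≤ t → t ≤ B → h t ≤ h s + (t - s) / 10 := fun s t a b d => by
    rw [hh, hh]; have := hmono s t a b d; linarith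
  have dn : ∀ s t, A ≤ s → s ≤ t → t ≤ B → h s - 2 * (t - s) ≤ h t := fun s t a b d => by
    rw [hh, hh]; have := hlip s t a b d; linarith
  obtain ⟨M, hM⟩ : ∃ M : ℝ → ℝ, ∀ t, M t = sSup (h '' Icc A t) := ⟨_, fun _ => rfl⟩
  obtain ⟨m, hm⟩ : ∃ m : ℝ → ℝ, ∀ t, m t = sInf (h '' Icc t B) := ⟨_, fun _ => rfl⟩
  have M1 : ∀ s t, A ≤ s → s ≤ t → t ≤ B → h s ≤ M t := fun s t a b d => by
    rw [hM]
    refine le_csSup ⟨h A + (B - A) / 10, ?_⟩ ⟨s, ⟨a, b⟩, rfl⟩
    rintro _ ⟨x, ⟨x1, x2⟩, rfl⟩
    have := up A x le_rfl x1 (x2.trans d)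
    linarith
  have M2 : ∀ t C, A ≤ t → (∀ s, A ≤ s → s ≤ t → h s ≤ C) → M t ≤ C := fun t C a b => by
    rw [hM]
    refine csSup_le ⟨h A, A, ⟨le_rfl, a⟩, rfl⟩ ?_
    rintro _ ⟨x, ⟨x1, x2⟩, rfl⟩
    exact b x x1 x2
  have m1 : ∀ t s, A ≤ t → t ≤ s → s ≤ B → m t ≤ h s := fun t s a b d => by
    rw [hm]
    refine csInf_le ⟨h B - (B - A) / 10, ?_⟩ ⟨s, ⟨b, d⟩, rfl⟩
    rintro _ ⟨x, ⟨x1, x2⟩, rfl⟩
    have := up x B (a.trans x1) x2 le_rfl
    linarith
  have m2 : ∀ t C, t ≤ B → (∀ s, t ≤ s → s ≤ B → C ≤ h s) → C ≤ m t := fun t C a b => by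
    rw [hm]
    refine le_csInf ⟨h B, B, ⟨a, le_rfl⟩, rfl⟩ ?_
    rintro _ ⟨x, ⟨x1, x2⟩, rfl⟩
    exact b x x1 x2
  have Mmono : ∀ s t, A ≤ s → s ≤ t → t ≤ B → M s ≤ M t := fun s t a b d =>
    M2 s _ a fun x x1 x2 => M1 x t x1 (x2.trans b) d
  have mmono : ∀ s t, A ≤ s → s ≤ t → t ≤ B → m s ≤ m t := fun s t a b d =>
    m2 t _ d fun x x1 x2 => m1 s x a (b.trans x1) x2
  have Mup : ∀ s t, A ≤ s → s ≤ t → t ≤ B → M t ≤ M s + (t - s) / 10 := fun s t a b d => by
    refine M2 t _ (a.trans b) fun x x1 x2 => ?_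
    rcases le_total x s with h1 | h1
    · have := M1 x s x1 h1 (b.trans d)
      linarith
    · have e1 := up s x a h1 (x2.trans d)
      have e2 := M1 s s a le_rfl (b.trans d)
      linarith
  have mup : ∀ s t, A ≤ s → s ≤ t → t ≤ B → m t ≤ m s + (t - s) / 10 := fun s t a b d => by
    have : m t - (t - s) / 10 ≤ m s := by
      refine m2 s _ (b.trans d) fun x x1 x2 => ?_
      rcases le_total t x with h1 | h1
      · have := m1 t x (a.trans b) h1 x2
        linarith
      · have e1 := up x t (a.trans x1) h1 d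
        have e2 := m1 t t (a.trans b) le_rfl d
        linarith
    linarith
  -- local behaviour
  have locM : ∀ z, A ≤ z → z ≤ B → h z < M z → ∃ r > 0, ∀ s t, A ≤ s → s ≤ t → t ≤ B →
      z - r < s → t < z + r → M t ≤ M s := by
    intro z z1 z2 z3
    refine ⟨(M z - h z) / 8, by linarith, fun s t a b d s1 t1 => ?_⟩
    have near : ∀ x, A ≤ x → x ≤ B → z - (M z - h z) / 8 < x → x < z + (M z - h z) / 8 →
        h x ≤ h z + (M z - h z) / 4 := by
      intro x x1 x2 x3 x4
      rcases le_total z x with h1 | h1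
      · have := up z x z1 h1 x2
        linarith
      · have := dn x z x1 h1 z2
        linarith
    have hMs : M z ≤ M s := by
      rcases le_total z s with h1 | h1
      · exact Mmono z s z1 h1 (b.trans d)
      · by_contra hc
        push Not at hc
        have := M2 z (max (M s) (h z + (M z - h z) / 4)) z1 fun x x1 x2 => by
          rcases le_total x s with h2 | h2
          · exact (M1 x s x1 h2 (b.trans d)).trans (le_max_left _ _)
          · exact (near x x1 (x2.trans z2) (by linarith) (by linarith)).trans (le_max_right _ _)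
        rcases le_max_iff.1 this with h2 | h2 <;> linarith
    refine M2 t _ (a.trans b) fun x x1 x2 => ?_
    rcases le_total x s with h1 | h1
    · exact M1 x s x1 h1 (b.trans d)
    · have := near x x1 (x2.trans d) (by linarith) (by linarith)
      linarith
  have locm : ∀ z, A ≤ z → z ≤ B → m z < h z → ∃ r > 0, ∀ s t, A ≤ s → s ≤ t → t ≤ B →
      z - r < s → t < z + r → m t ≤ m s := by
    intro z z1 z2 z3
    refine ⟨(h z - m z) / 8, by linarith, fun s t a b d s1 t1 => ?_⟩
    have near : ∀ x, A ≤ x → x ≤ B → z - (h z - m z) / 8 < x → x < z + (h z - m z) / 8 →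
        h z - (h z - m z) / 4 ≤ h x := by
      intro x x1 x2 x3 x4
      rcases le_total z x with h1 | h1
      · have := dn z x z1 h1 x2
        linarith
      · have := up x z x1 h1 z2
        linarith
    have hmt : m t ≤ m z := by
      rcases le_total t z with h1 | h1
      · exact mmono t z (a.trans b) h1 z2
      · by_contra hc
        push Not at hc
        have := m2 z (min (m t) (h z - (h z - m z) / 4)) z2 fun x x1 x2 => by
          rcases le_total t x with h2 | h2
          · exact (min_le_left _ _).trans (m1 t x (a.trans b) h2 x2)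
          · exact (min_le_right _ _).trans (near x (z1.trans x1) x2 (by linarith) (by linarith))
        rcases min_le_iff.1 this with h2 | h2 <;> linarith
    refine m2 s _ (b.trans d) fun x x1 x2 => ?_
    rcases le_total t x with h1 | h1
    · exact m1 t x (a.trans b) h1 x2
    · have := near x (a.trans x1) x2 (by linarith) (by linarith)
      linarith
  -- the middle third
  have hQ := loc_anti (Q := fun t => M t + m t - t / 10) (a := A + (B - A) / 3)
    (b := A + 2 * (B - A) / 3) (by linarith) fun z z1 z2 => by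
      have zA : A ≤ z := by linarith
      have zB : z ≤ B := by linarith
      obtain ⟨t, t1, t2, t3⟩ := hcon z z1 z2
      have hz : h z < M z ∨ m z < h z := by
        rcases le_total t z with h1 | h1
        · left
          have e1 := hmono t z t1 h1 zB
          rw [abs_of_nonpos (by linarith), abs_of_nonpos (by linarith)] at t3
          have e2 := M1 t z t1 h1 zB
          rw [hh] at e2
          rw [hh z]
          linarith
        · right
          have e1 := hmono z t zA h1 t2
          rw [abs_of_nonneg (by linarith), abs_of_nonneg (by linarith)] at t3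
          have e2 := m1 z t zA h1 t2
          rw [hh] at e2
          rw [hh z]
          linarith
      rcases hz with hz | hz
      · obtain ⟨r, hr, H⟩ := locM z zA zB hz
        refine ⟨r, hr, fun s t a b d s1 t1 => ?_⟩
        have e1 := H s t (by linarith) b (by linarith) s1 t1
        have e2 := mup s t (by linarith) b (by linarith)
        linarith
      · obtain ⟨r, hr, H⟩ := locm z zA zB hz
        refine ⟨r, hr, fun s t a b d s1 t1 => ?_⟩
        have e1 := H s t (by linarith) b (by linarith) s1 t1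
        have e2 := Mup s t (by linarith) b (by linarith)
        linarith
  have a1 := Mup A (A + (B - A) / 3) le_rfl (by linarith) (by linarith)
  have a2 := mup A (A + (B - A) / 3) le_rfl (by linarith) (by linarith)
  have b1 := Mup (A + 2 * (B - A) / 3) B (by linarith) (by linarith) le_rfl
  have b2 := mup (A + 2 * (B - A) / 3) B (by linarith) (by linarith) le_rfl
  have c1 := M1 B B hAB.le le_rfl le_rfl
  have c2 := m2 B (h B) le_rfl fun x x1 x2 => by rw [le_antisymm x2 x1]
  have c3 := M2 A (h A) le_rfl fun x x1 x2 => by rw [le_antisymm x2 x1]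
  have c4 := m1 A A le_rfl le_rfl hAB.le
  rw [hh B] at c1 c2
  rw [hh A] at c3 c4
  linarith

end Pool.Agent.Helper584_PC
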