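import Pool.Agent.Helper584_PC.Pca

/-! The number of half turns of the angle function at chord-arc points. -/

set_option autoImplicit false
open Complex Set Topology Metric

namespace Pool.Agent.Helper584_PC

open Pool.Agent.H763R2 Pool.Agent.H763R2.An Pool.Agent.W675.Peg Pool.Agent.TH569.Peg
open Pool.Agent.Y535.PEG
open Pool.Agent.H763R2.Dm (NoSq)

variable {c : ℝ → ℂ} {θ : ℝ → ℝ → ℝ} {g : ℤ}

/-- the pairs of parameters around `p` -/
def Fam (p r : ℝ) : Set (ℝ × ℝ) :=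
  {z | (p - r < z.1 ∧ z.1 ≤ p) ∧ (p ≤ z.2 ∧ z.2 < p + r) ∧ z.1 < z.2}

theorem Fam_pre (p r : ℝ) : IsPreconnected (Fam p r) := by
  have h1 : Convex ℝ ((Ioc (p - r) p) ×ˢ (Ico p (p + r))) :=
    (convex_Ioc _ _).prod (convex_Ico _ _)
  have h2 : Convex ℝ {z : ℝ × ℝ | z.1 < z.2} := by
    have := convex_halfSpace_lt (𝕜 := ℝ) (f := fun z : ℝ × ℝ => z.1 - z.2)
      ⟨fun x y => by simp only [Prod.fst_add, Prod.snd_add]; ring,
        fun a x => by simp only [Prod.smul_fst, Prod.smul_snd, smul_eq_mul]; ring⟩ 0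
    simpa [sub_neg] using this
  have e : Fam p r = ((Ioc (p - r) p) ×ˢ (Ico p (p + r))) ∩ {z : ℝ × ℝ | z.1 < z.2} := by
    ext z
    constructor
    · rintro ⟨a, b, d⟩; exact ⟨⟨a, b⟩, d⟩
    · rintro ⟨⟨a, b⟩, d⟩; exact ⟨a, b, d⟩
  rw [e]
  exact (h1.inter h2).isPreconnected

theorem Fam_UU {p r : ℝ} (hr : r ≤ 1 / 2) {z : ℝ × ℝ} (hz : z ∈ Fam p r) :
    z.1 < z.2 ∧ z.2 < z.1 + 1 := by
  obtain ⟨⟨a, b⟩, ⟨d, e⟩, f⟩ := hz
  exact ⟨f, by linarith⟩

theorem sin_ne (L : Loop c) (A : Ang c (mgc c) θ g) {x y : ℝ} (h1 : x < y) (h2 : y < x + 1)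
    (h : CC c x y ∉ range c) : Real.sin (θ x y) ≠ 0 := by
  intro h0
  obtain ⟨r, hr, -, e⟩ := A.ex x y h1 h2
  rw [h0, mul_zero] at e
  exact h (((mgc_sg L).zero L).1 e)

/-- the number of half turns at `p` is `k` -/
def V (θ : ℝ → ℝ → ℝ) (p : ℝ) (k : ℤ) : Prop := ∃ r > 0, ∀ x y : ℝ, p - r < x → x ≤ p → p ≤ y →
  y < p + r → x < y → ⌊θ x y / Real.pi⌋ = k

theorem V.uniq {p : ℝ} {k k' : ℤ} (h : V θ p k) (h' : V θ p k') : k = k' := by
  obtain ⟨r, hr, H⟩ := h
  obtain ⟨r', hr', H'⟩ := h'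
  have h1 := min_le_left r r'
  have h2 := min_le_right r r'
  have h3 : 0 < min r r' := lt_min hr hr'
  rw [← H p (p + min r r' / 2) (by linarith) le_rfl (by linarith) (by linarith) (by linarith),
    H' p (p + min r r' / 2) (by linarith) le_rfl (by linarith) (by linarith) (by linarith)]

theorem V.of_KL {p : ℝ} {k : ℤ} (h : KL θ p k) : V θ p k := by
  obtain ⟨r, hr, H⟩ := h
  refine ⟨r, hr, fun x y a b d e f => H x y ?_ ?_ f⟩ <;> rw [abs_lt] <;> constructor <;> linarith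

theorem V.per (A : Ang c (mgc c) θ g) {p : ℝ} {k : ℤ} (h : V θ p k) : V θ (p + 1) (k + 2 * g) := by
  obtain ⟨r, hr, H⟩ := h
  refine ⟨min r (1 / 2), by positivity, fun x y a b d e f => ?_⟩
  have h1 := min_le_left r (1 / 2)
  have h2 := min_le_right r (1 / 2)
  have hk := H (x - 1) (y - 1) (by linarith) (by linarith) (by linarith) (by linarith) (by linarith)
  have hp := A.per (x - 1) (y - 1) (by linarith) (by linarith)
  rw [sub_add_cancel, sub_add_cancel] at hp
  rw [hp, show (θ (x - 1) (y - 1) + g * (2 * Real.pi)) / Real.pi =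
    θ (x - 1) (y - 1) / Real.pi + ((2 * g : ℤ) : ℝ) by
      have := Real.pi_ne_zero
      push_cast; field_simp, Int.floor_add_intCast, hk]

/-- around a chord-arc point the number of half turns is constant -/
theorem pc_const (L : Loop c) (J : Inj c) (hl : ∀ x y, ‖c x - c y‖ ≤ |x - y|)
    (A : Ang c (mgc c) θ g) {ρ0 : ℝ} (hρ0 : 0 < ρ0) : ∃ r > 0, r ≤ ρ0 / 2 ∧ r ≤ 1 / 2 ∧
      ∀ p, Pc c (9 / 10) p ρ0 → ∃ k : ℤ, ∀ x y : ℝ, p - r < x → x ≤ p → p ≤ y →
        y < p + r → x < y → ⌊θ x y / Real.pi⌋ = k := by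
  obtain ⟨r, hr, r1, r2, H⟩ := Pc_off L J hl hρ0
  refine ⟨r, hr, r1, r2, fun p hp => ⟨⌊θ p (p + r / 2) / Real.pi⌋, fun x y a b d e f => ?_⟩⟩
  refine floor_pre (Fam_pre p r) (f := fun z => θ z.1 z.2)
    (A.cont.mono fun z hz => Fam_UU r2 hz) (fun z hz => ?_) (z := (x, y))
    (w := (p, p + r / 2)) ⟨⟨a, b⟩, ⟨d, e⟩, f⟩ ⟨⟨by simp only; linarith, le_rfl⟩,
      ⟨by simp only; linarith, by simp only; linarith⟩, by simp only; linarith⟩
  have hu := Fam_UU r2 hz
  exact sin_ne L A hu.1 hu.2 (H p hp z.1 z.2 hz.1.1 hz.1.2 hz.2.1.1 hz.2.1.2 hz.2.2)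

/-- a point of an almost straight arc around which the arc is almost straight at all scales -/
theorem exrec_c (hl : ∀ x y, ‖c x - c y‖ ≤ |x - y|) {a b : ℝ} (hab : a < b)
    (hch : 99 / 100 * (b - a) ≤ ‖c b - c a‖) :
    ∃ q, a + (b - a) / 3 ≤ q ∧ q ≤ a + 2 * (b - a) / 3 ∧
      ∀ x y, a ≤ x → x ≤ q → q ≤ y → y ≤ b → 9 / 10 * (y - x) ≤ ‖c y - c x‖ := by
  obtain ⟨N, hN⟩ : ∃ N, N = ‖c b - c a‖ := ⟨_, rfl⟩
  have hN0 : 0 < N := by linarith
  have hNc : (N : ℂ) ≠ 0 := by exact_mod_cast hN0.ne'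
  obtain ⟨w, hw⟩ : ∃ w : ℂ, w = (starRingEnd ℂ) (c b - c a) / N := ⟨_, rfl⟩
  have hw1 : ‖w‖ = 1 := by
    rw [hw, norm_div, RCLike.norm_conj, ← hN, norm_real, Real.norm_eq_abs, abs_of_pos hN0,
      div_self hN0.ne']
  have hwN : w * (c b - c a) = N := by
    rw [hw, div_mul_eq_mul_div, mul_comm, mul_conj, normSq_eq_norm_sq, ← hN]
    push_cast
    field_simp
  have re_le : ∀ s t, |(w * (c t - c s)).re| ≤ |t - s| := fun s t => by
    refine (abs_re_le_norm _).trans ?_
    rw [norm_mul, hw1, one_mul]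
    exact hl t s
  have hde : ∀ s t, (t - (w * c t).re) - (s - (w * c s).re) = (t - s) - (w * (c t - c s)).re := by
    intro s t
    rw [mul_sub, sub_re]; ring
  obtain ⟨q, q1, q2, q3⟩ := exRec (e := fun t => t - (w * c t).re) hab
    (fun s t _ h _ => by
      have h1 := hde s t
      have h2 := abs_le.1 (re_le s t)
      rw [abs_of_nonneg (by linarith)] at h2
      linarith)
    (fun s t _ h _ => by
      rw [hde s t]
      have h2 := abs_le.1 (re_le s t)
      rw [abs_of_nonneg (by linarith)] at h2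
      linarith)
    (by
      rw [hde a b, hwN, ofReal_re]
      linarith)
  refine ⟨q, q1, q2, fun x y hx hxq hqy hy => ?_⟩
  have k1 := abs_le.1 (q3 x hx (by linarith))
  have k2 := abs_le.1 (q3 y (by linarith) hy)
  rw [abs_of_nonpos (by linarith)] at k1
  rw [abs_of_nonneg (by linarith)] at k2
  have h1 := hde x y
  have h2 : (w * (c y - c x)).re ≤ ‖c y - c x‖ := by
    refine (le_abs_self _).trans ((abs_re_le_norm _).trans ?_)
    rw [norm_mul, hw1, one_mul]
  linarith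

/-- a good point to the right of a chord-arc point -/
theorem rec_right (L : Loop c) (J : Inj c) (hl : ∀ x y, ‖c x - c y‖ ≤ |x - y|) {ρ0 : ℝ}
    (hρ0 : 0 < ρ0) : ∃ r > 0, ∀ a q, a < q → q < a + r → Pc c (99 / 100) a ρ0 →
      ∃ z, a < z ∧ z < q ∧ (∃ ρ > 0, Pc c (9 / 10) z ρ) ∧
        ∀ x, a ≤ x → x < z → CC c x z ∉ range c := by
  obtain ⟨ρ1, hρ1, hn⟩ := near_par L J (δ := ρ0 / 2) (by positivity)
  obtain ⟨r, hr, r1, r3⟩ : ∃ r > 0, r ≤ ρ0 / 2 ∧ r ≤ ρ1 :=
    ⟨min (ρ0 / 2) ρ1, by positivity, min_le_left _ _, min_le_right _ _⟩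
  refine ⟨r, hr, fun a q haq hqr hP => ?_⟩
  obtain ⟨z, z1, z2, T⟩ := exrec_c hl haq (hP a q (by linarith) le_rfl haq.le (by linarith))
  have za : a < z := by linarith
  have zq : z < q := by linarith
  refine ⟨z, za, zq, ⟨min (z - a) (q - z), lt_min (by linarith) (by linarith),
    fun x y x1 x2 y1 y2 => T x y ?_ x2 y1 ?_⟩, fun x hx hxz => ?_⟩
  · linarith [min_le_left (z - a) (q - z)]
  · linarith [min_le_right (z - a) (q - z)]
  rintro ⟨t0, ht0⟩
  have n1 := norm_CC_y hl hxz.le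
  obtain ⟨n, e, he, hte⟩ := hn t0 z (by rw [ht0]; linarith)
  obtain ⟨t, ht⟩ : ∃ t, t = z + e := ⟨_, rfl⟩
  have hct : c t = CC c x z := by
    rw [← ht0, hte, ht, L.per_int]
  have he' := abs_lt.1 he
  have n2 : ‖c t - c z‖ ≤ z - x := by rw [hct]; exact n1
  have n2' : ‖c z - c t‖ ≤ z - x := by rw [norm_sub_rev]; exact n2
  rcases lt_or_ge t a with h | h
  · have k1 := hP t z (by linarith) h.le za.le (by linarith)
    refine off3 hl hxz (by linarith) le_rfl le_rfl (by linarith) (by linarith) ?_ hct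
    rw [abs_of_nonpos (by linarith)]; linarith
  · rcases le_or_gt t z with h2 | h2
    · have k1 := T t z h h2 le_rfl zq.le
      have hty : |t - z| ≤ 9 / 8 * (z - x) := by
        rw [abs_of_nonpos (by linarith)]; linarith
      rcases le_total t x with h' | h'
      · exact off3 hl hxz h' le_rfl le_rfl h2 (by linarith) hty hct
      · have := T x z hx hxz.le le_rfl zq.le
        exact off3 hl hxz le_rfl le_rfl h' h2 (by linarith) hty hct
    · rcases le_or_gt t q with h3 | h3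
      · have k1 := T z t za.le le_rfl h2.le h3
        have k2 := T x t hx hxz.le h2.le h3
        refine off3 hl hxz le_rfl h2.le (by linarith) le_rfl (by linarith) ?_ hct
        rw [abs_of_nonneg (by linarith)]; linarith
      · have k1 := hP a t (by linarith) le_rfl (by linarith) (by linarith)
        have k2 : ‖c t - c a‖ ≤ (z - x) + (z - a) := by
          have e1 : c t - c a = (c t - c z) + (c z - c a) := by ring
          rw [e1]
          refine (norm_add_le _ _).trans (add_le_add n2 ?_)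
          refine (hl z a).trans ?_
          rw [abs_of_nonneg (by linarith)]
        refine off3 hl hxz hx h2.le (by linarith) le_rfl (by linarith) ?_ hct
        rw [abs_of_nonneg (by linarith)]; linarith

/-- a good point to the left of a chord-arc point -/
theorem rec_left (L : Loop c) (J : Inj c) (hl : ∀ x y, ‖c x - c y‖ ≤ |x - y|) {ρ0 : ℝ}
    (hρ0 : 0 < ρ0) : ∃ r > 0, ∀ b q, q < b → b < q + r → Pc c (99 / 100) b ρ0 →
      ∃ z, q < z ∧ z < b ∧ (∃ ρ > 0, Pc c (9 / 10) z ρ) ∧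
        ∀ y, z < y → y ≤ b → CC c z y ∉ range c := by
  obtain ⟨ρ1, hρ1, hn⟩ := near_par L J (δ := ρ0 / 2) (by positivity)
  obtain ⟨r, hr, r1, r3⟩ : ∃ r > 0, r ≤ ρ0 / 2 ∧ r ≤ ρ1 :=
    ⟨min (ρ0 / 2) ρ1, by positivity, min_le_left _ _, min_le_right _ _⟩
  refine ⟨r, hr, fun b q hqb hbr hP => ?_⟩
  obtain ⟨z, z1, z2, T⟩ := exrec_c hl hqb (hP q b (by linarith) hqb.le le_rfl (by linarith))
  have zq : q < z := by linarith
  have zb : z < b := by linarith
  refine ⟨z, zq, zb, ⟨min (z - q) (b - z), lt_min (by linarith) (by linarith),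
    fun x y x1 x2 y1 y2 => T x y ?_ x2 y1 ?_⟩, fun y hzy hyb => ?_⟩
  · linarith [min_le_left (z - q) (b - z)]
  · linarith [min_le_right (z - q) (b - z)]
  rintro ⟨t0, ht0⟩
  have n1 := norm_CC_y hl hzy.le
  have n3 := norm_CC_x hl hzy.le
  obtain ⟨n, e, he, hte⟩ := hn t0 y (by rw [ht0]; linarith)
  obtain ⟨t, ht⟩ : ∃ t, t = y + e := ⟨_, rfl⟩
  have hct : c t = CC c z y := by
    rw [← ht0, hte, ht, L.per_int]
  have he' := abs_lt.1 he
  have n2 : ‖c t - c y‖ ≤ y - z := by rw [hct]; exact n1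
  have n2' : ‖c y - c t‖ ≤ y - z := by rw [norm_sub_rev]; exact n2
  have n4 : ‖c t - c z‖ ≤ 29 / 20 * (y - z) := by rw [hct]; exact n3
  rcases le_or_gt b t with h | h
  · have k1 := hP z t (by linarith) zb.le h (by linarith)
    refine off3 hl hzy le_rfl (by linarith) (by linarith) le_rfl (by linarith) ?_ hct
    rw [abs_of_nonneg (by linarith)]; linarith
  · rcases le_or_gt z t with h2 | h2
    · have k1 := T z t zq.le le_rfl h2 h.le
      rcases le_total t y with h' | h'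
      · have := T z y zq.le le_rfl hzy.le hyb
        refine off3 hl hzy le_rfl le_rfl h2 h' (by linarith) ?_ hct
        rw [abs_of_nonpos (by linarith)]; linarith
      · refine off3 hl hzy le_rfl h' h2 le_rfl (by linarith) ?_ hct
        rw [abs_of_nonneg (by linarith)]; linarith
    · rcases le_or_gt q t with h3 | h3
      · have k1 := T t y h3 h2.le hzy.le hyb
        refine off3 hl hzy h2.le le_rfl le_rfl (by linarith) (by linarith) ?_ hct
        rw [abs_of_nonpos (by linarith)]; linarith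
      · exfalso
        have k1 := hP t b (by linarith) h.le le_rfl (by linarith)
        have k2 : ‖c b - c t‖ ≤ (b - y) + (y - z) := by
          have e1 : c b - c t = (c b - c y) + (c y - c t) := by ring
          rw [e1]
          refine (norm_add_le _ _).trans (add_le_add ?_ n2')
          refine (hl b y).trans ?_
          rw [abs_of_nonneg (by linarith)]
        linarith

end Pool.Agent.Helper584_PC
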